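import Mathlib
import Pool.Agent.Q240.CJC.Color
import Pool.Agent.Q240.CJC.Lat
import Pool.Agent.Q240.CJC.Grotzsch

/-! MP_b1aa48_co: the class of canonical join complexes of finite semidistributive lattices is not
closed under induced subcomplexes. -/

namespace Pool.Agent.Results.MP_b1aa48_co.NotClosed

open Pool.Agent.Q240.CJC

universe u

/-- There are a finite semidistributive lattice `L` and a set `W` of join-irreducible elements of
`L` such that for no finite semidistributive lattice `L'` there is a bijection from `W` to the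
join-irreducible elements of `L'` carrying the faces of the canonical join complex of `L` that lie
in `W` to the faces of the canonical join complex of `L'`, in both directions. -/
theorem result : ∃ (L : Type) (_ : Lattice L) (_ : Finite L), SemiDist L ∧
    ∃ W : Set (JI L), ∀ (L' : Type u) [Lattice L'] [Finite L'], SemiDist L' →
      ¬ ∃ f : W ≃ JI L', ∀ A : Set W, (Subtype.val '' A ∈ cjc L ↔ f '' A ∈ cjc L') := by
  refine ⟨Cl gr, inferInstance, inferInstance, semiDist, ?_⟩
  let j : Fin 11 → JI (Cl gr) := fun x => ⟨gen gr x, supIrred_gen gr_irr x⟩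
  have hj : Function.Injective j := fun x y h => gen_inj gr_anti (congrArg Subtype.val h)
  refine ⟨Set.range j, fun L' _ _ hL' => ?_⟩
  rintro ⟨f, hf⟩
  let g : Fin 11 → JI L' := fun x => f ⟨j x, x, rfl⟩
  have hg : Function.Injective g := by
    intro x y h
    have h1 := f.injective h
    exact hj (congrArg Subtype.val h1)
  have hgs : ∀ a : JI L', ∃ x, g x = a := by
    intro a
    obtain ⟨⟨b, x, rfl⟩, hb⟩ := f.surjective a
    exact ⟨x, hb⟩
  have hpair : ∀ x y, (({j x, j y} : Set (JI (Cl gr))) ∈ cjc (Cl gr) ↔
      ({g x, g y} : Set (JI L')) ∈ cjc L') := by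
    intro x y
    have := hf {⟨j x, x, rfl⟩, ⟨j y, y, rfl⟩}
    simpa only [Set.image_pair] using this
  -- non-faces are the edges of the graph
  have hNF : ∀ x y, NF (g x) (g y) ↔ (gr x y ∨ gr y x) := by
    intro x y
    unfold NF
    rw [← hpair, mem_cjc_pair]
    constructor
    · rintro ⟨h1, h2⟩
      by_contra hcon
      push Not at hcon
      exact h2 ⟨_, canon_of_not_arc gr_irr (fun he => h1 (by rw [he])) hcon.1 hcon.2⟩
    · intro h
      refine ⟨fun he => ?_, ?_⟩
      · have hxy := hg he
        subst hxy
        rcases h with h | h <;> exact gr_irr x h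
      · rintro ⟨w, hw⟩
        rcases h with h | h
        · exact not_canon_of_arc gr_irr gr_anti h w hw
        · apply not_canon_of_arc gr_irr gr_anti h w
          rw [Set.pair_comm]
          exact hw
  obtain ⟨col, hcol⟩ := three_col hL' (by
    intro a b c hab hbc hac
    obtain ⟨x, rfl⟩ := hgs a
    obtain ⟨y, rfl⟩ := hgs b
    obtain ⟨z, rfl⟩ := hgs c
    exact gr_tri x y z ((hNF x y).1 hab) ((hNF y z).1 hbc) ((hNF x z).1 hac))
  exact gr_not_col (fun x => col (g x)) fun x y h => hcol _ _ ((hNF x y).2 (Or.inl h))

end Pool.Agent.Results.MP_b1aa48_co.NotClosed
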